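import Pool.Agent.Lib.MP_ba0fa5_ag.AA.IfaceA

/-!
# Modules ABS, ABT: bookkeeping lemmas (helper81)
-/

set_option autoImplicit false

namespace Pool.Agent.Lib.MP_ba0fa5_ag.AA.H81

open scoped Classical
open Finset

theorem quad_bound (X U V K : Finset ℕ) (a : ℕ → ℝ) (b : ℕ → ℕ → ℝ) (c : ℕ → ℕ → ℕ → ℝ)
    (e : ℕ → ℝ) (ha : ∀ x, 0 ≤ a x) (hb : ∀ x u, 0 ≤ b x u) (hc : ∀ x u v, 0 ≤ c x u v)
    (α β γ δ : ℝ) (h1 : ∑ x ∈ X, a x ≤ α) (h2 : ∀ x, ∑ u ∈ U, b x u ≤ β)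
    (h3 : ∀ x u, ∑ v ∈ V, c x u v ≤ γ) (h4 : ∑ k ∈ K, e k ≤ δ) (hβ : 0 ≤ β) (hγ : 0 ≤ γ)
    (hδ : 0 ≤ δ) :
    ∑ x ∈ X, ∑ u ∈ U, ∑ v ∈ V, ∑ k ∈ K, a x * b x u * c x u v * e k ≤ α * β * γ * δ := by
  calc ∑ x ∈ X, ∑ u ∈ U, ∑ v ∈ V, ∑ k ∈ K, a x * b x u * c x u v * e k
      = ∑ x ∈ X, ∑ u ∈ U, ∑ v ∈ V, a x * b x u * c x u v * ∑ k ∈ K, e k := by
        simp only [Finset.mul_sum]
    _ ≤ ∑ x ∈ X, ∑ u ∈ U, ∑ v ∈ V, a x * b x u * c x u v * δ := by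
        refine Finset.sum_le_sum fun x _ => Finset.sum_le_sum fun u _ => Finset.sum_le_sum
          fun v _ => ?_
        exact mul_le_mul_of_nonneg_left h4 (mul_nonneg (mul_nonneg (ha x) (hb x u)) (hc x u v))
    _ = ∑ x ∈ X, ∑ u ∈ U, (a x * b x u * δ) * ∑ v ∈ V, c x u v := by
        refine Finset.sum_congr rfl fun x _ => Finset.sum_congr rfl fun u _ => ?_
        rw [Finset.mul_sum]
        exact Finset.sum_congr rfl fun v _ => by ring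
    _ ≤ ∑ x ∈ X, ∑ u ∈ U, (a x * b x u * δ) * γ := by
        refine Finset.sum_le_sum fun x _ => Finset.sum_le_sum fun u _ => ?_
        exact mul_le_mul_of_nonneg_left (h3 x u) (mul_nonneg (mul_nonneg (ha x) (hb x u)) hδ)
    _ = ∑ x ∈ X, (a x * δ * γ) * ∑ u ∈ U, b x u := by
        refine Finset.sum_congr rfl fun x _ => ?_
        rw [Finset.mul_sum]
        exact Finset.sum_congr rfl fun u _ => by ring
    _ ≤ ∑ x ∈ X, (a x * δ * γ) * β := by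
        refine Finset.sum_le_sum fun x _ => ?_
        exact mul_le_mul_of_nonneg_left (h2 x) (mul_nonneg (mul_nonneg (ha x) hδ) hγ)
    _ = (∑ x ∈ X, a x) * (δ * γ * β) := by
        rw [Finset.sum_mul]
        exact Finset.sum_congr rfl fun x _ => by ring
    _ ≤ α * (δ * γ * β) :=
        mul_le_mul_of_nonneg_right h1 (mul_nonneg (mul_nonneg hδ hγ) hβ)
    _ = α * β * γ * δ := by ring

theorem sum_le_of_class (A : Finset ℕ) (p : ℕ → Prop) [DecidablePred p] (f : ℕ → ℝ) (hf : ∀ n, 0 ≤ f n) (m : ℕ)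
    (β : ℝ) (hβ : 0 ≤ β) (hc : ∀ c, ∑ n ∈ A.filter (fun n => n ≡ c [MOD m]), f n ≤ β)
    (hp : ∀ u u', p u → p u' → u ≡ u' [MOD m]) : ∑ n ∈ A.filter p, f n ≤ β := by
  rcases (A.filter p).eq_empty_or_nonempty with h | ⟨u0, h0⟩
  · rw [h, Finset.sum_empty]
    exact hβ
  · have h0' := (Finset.mem_filter.1 h0).2
    refine le_trans (Finset.sum_le_sum_of_subset_of_nonneg ?_ fun n _ _ => hf n) (hc u0)
    intro u hu
    rw [Finset.mem_filter] at hu ⊢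
    exact ⟨hu.1, hp u u0 hu.2 h0'⟩

/-- the four gcds -/
def gq (t : ℕ) (q : ℕ × ℕ × ℕ × ℕ) : ℕ × ℕ × ℕ × ℕ :=
  (t.gcd q.1, t.gcd q.2.1, t.gcd q.2.2.1, t.gcd q.2.2.2)

theorem cop_gq {t : ℕ} {q : ℕ × ℕ × ℕ × ℕ} (h : Cop q) : Cop (gq t q) := by
  obtain ⟨h1, h2, h3, h4, h5, h6⟩ := h
  have key : ∀ {a b : ℕ}, a.Coprime b → (t.gcd a).Coprime (t.gcd b) := fun {a b} hab =>
    Nat.Coprime.coprime_dvd_left (Nat.gcd_dvd_right t a)
      (Nat.Coprime.coprime_dvd_right (Nat.gcd_dvd_right t b) hab)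
  exact ⟨key h1, key h2, key h3, key h4, key h5, key h6⟩

theorem HH_gq {t : ℕ} {q : ℕ × ℕ × ℕ × ℕ} (h : Cop q) (ht : t ∣ HH q) : HH (gq t q) = t := by
  obtain ⟨h1, h2, h3, h4, h5, h6⟩ := h
  have e1 : t.gcd (HH q) = t.gcd q.1 * t.gcd q.2.1 * t.gcd q.2.2.1 * t.gcd q.2.2.2 := by
    unfold HH
    rw [Nat.Coprime.gcd_mul t (Nat.Coprime.mul_left (Nat.Coprime.mul_left h3 h5) h6),
      Nat.Coprime.gcd_mul t (Nat.Coprime.mul_left h2 h4), Nat.Coprime.gcd_mul t h1]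
  rw [Nat.gcd_eq_left ht] at e1
  exact e1.symm

theorem gq_mem {t : ℕ} (ht : 1 ≤ t) {q : ℕ × ℕ × ℕ × ℕ} (h : Cop q) (htq : t ∣ HH q) :
    gq t q ∈ t.divisors ×ˢ t.divisors ×ˢ t.divisors ×ˢ t.divisors ∧ Cop (gq t q) ∧
      HH (gq t q) = t := by
  refine ⟨?_, cop_gq h, HH_gq h htq⟩
  simp only [Finset.mem_product, Nat.mem_divisors, gq]
  have h0 : t ≠ 0 := by omega
  exact ⟨⟨Nat.gcd_dvd_left _ _, h0⟩, ⟨Nat.gcd_dvd_left _ _, h0⟩, ⟨Nat.gcd_dvd_left _ _, h0⟩,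
    ⟨Nat.gcd_dvd_left _ _, h0⟩⟩

theorem sum_split (t : ℕ) (Q : Finset (ℕ × ℕ × ℕ × ℕ))
    (P : ℕ × ℕ × ℕ × ℕ → Prop) [DecidablePred P] (F : ℕ × ℕ × ℕ × ℕ → ℝ)
    (S : Finset (ℕ × ℕ × ℕ × ℕ)) (R : ℕ × ℕ × ℕ × ℕ → ℝ)
    (hP : ∀ q, P q → gq t q ∈ S)
    (h : ∀ s ∈ S, ∑ q ∈ (Q.filter P).filter (fun q => gq t q = s), F q ≤ R s) :
    ∑ q ∈ Q.filter P, F q ≤ ∑ s ∈ S, R s := by
  rw [← Finset.sum_fiberwise_of_maps_to (s := Q.filter P) (t := S) (g := gq t)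
    (fun q hq => hP q (Finset.mem_filter.1 hq).2) F]
  exact Finset.sum_le_sum h

theorem prod_expand (X U V K : Finset ℕ) (P : ℕ × ℕ × ℕ × ℕ → Prop) [DecidablePred P]
    (f : ℕ → ℝ)
    (hf : ∀ n, 0 ≤ f n) (A : ℕ → Prop) (B : ℕ → ℕ → Prop) (C : ℕ → ℕ → ℕ → Prop)
    (E : ℕ → Prop) [DecidablePred A] [∀ x, DecidablePred (B x)]
    [∀ x u, DecidablePred (C x u)] [DecidablePred E] (hP : ∀ x u v k, P (x, u, v, k) → A x ∧ B x u ∧ C x u v ∧ E k) :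
    ∑ q ∈ (X ×ˢ U ×ˢ V ×ˢ K).filter P, f q.1 * f q.2.1 * f q.2.2.1 * f q.2.2.2 ≤
      ∑ x ∈ X, ∑ u ∈ U, ∑ v ∈ V, ∑ k ∈ K, (if A x then f x else 0) *
        (if B x u then f u else 0) * (if C x u v then f v else 0) * (if E k then f k else 0) := by
  rw [Finset.sum_filter, Finset.sum_product]
  refine Finset.sum_le_sum fun x _ => ?_
  rw [Finset.sum_product]
  refine Finset.sum_le_sum fun u _ => ?_
  rw [Finset.sum_product]
  refine Finset.sum_le_sum fun v _ => Finset.sum_le_sum fun k _ => ?_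
  by_cases h : P (x, u, v, k)
  · obtain ⟨h1, h2, h3, h4⟩ := hP x u v k h
    rw [if_pos h, if_pos h1, if_pos h2, if_pos h3, if_pos h4]
  · rw [if_neg h]
    have n1 : ∀ (p : Prop) [Decidable p] (n : ℕ), 0 ≤ (if p then f n else 0) := fun p _ n => by
      by_cases hp : p
      · rw [if_pos hp]; exact hf n
      · rw [if_neg hp]
    exact mul_nonneg (mul_nonneg (mul_nonneg (n1 _ _) (n1 _ _)) (n1 _ _)) (n1 _ _)

theorem ite_nn (f : ℕ → ℝ) (hf : ∀ n, 0 ≤ f n) (p : Prop) [Decidable p] (n : ℕ) :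
    0 ≤ (if p then f n else 0) := by
  by_cases hp : p
  · rw [if_pos hp]; exact hf n
  · rw [if_neg hp]

/-- Module ABT. -/
theorem abt : AbtStmt := by
  intro X U V K f βx βu βv βk t ht hf hβ hX hU hV hK
  refine sum_split t _ _ _ _ (fun s => βx s.1 * βu s.2.1 * βv s.2.2.1 * βk s.2.2.2)
    (fun q hq => Finset.mem_filter.2 (gq_mem ht hq.1 hq.2)) ?_
  rintro ⟨s1, s2, s3, s4⟩ hs
  have hs' := Finset.mem_filter.1 hs
  have hdiv := hs'.1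
  simp only [Finset.mem_product, Nat.mem_divisors] at hdiv
  rw [Finset.filter_filter]
  refine (prod_expand X U V K _ f hf (fun x => s1 ∣ x) (fun _ u => s2 ∣ u) (fun _ _ v => s3 ∣ v)
    (fun k => s4 ∣ k) ?_).trans ?_
  · rintro x u v k ⟨_, h⟩
    simp only [gq, Prod.mk.injEq] at h
    obtain ⟨h1, h2, h3, h4⟩ := h
    exact ⟨h1 ▸ Nat.gcd_dvd_right _ _, h2 ▸ Nat.gcd_dvd_right _ _, h3 ▸ Nat.gcd_dvd_right _ _,
      h4 ▸ Nat.gcd_dvd_right _ _⟩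
  · refine quad_bound X U V K (fun x => if s1 ∣ x then f x else 0)
      (fun _ u => if s2 ∣ u then f u else 0) (fun _ _ v => if s3 ∣ v then f v else 0)
      (fun k => if s4 ∣ k then f k else 0) (fun x => ite_nn f hf _ _) (fun _ u => ite_nn f hf _ _)
      (fun _ _ v => ite_nn f hf _ _) _ _ _ _ ?_ ?_ ?_ ?_ (hβ _).2.1 (hβ _).2.2.1 (hβ _).2.2.2
    · rw [← Finset.sum_filter]; exact hX s1 hdiv.1.1
    · intro _; rw [← Finset.sum_filter]; exact hU s2 hdiv.2.1.1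
    · intro _ _; rw [← Finset.sum_filter]; exact hV s3 hdiv.2.2.1.1
    · rw [← Finset.sum_filter]; exact hK s4 hdiv.2.2.2.1

/-- Module ABS. -/
theorem abs' : AbsStmt := by
  intro X U V K f βx βu βv βk t D b ht hD htD hf hβ hX hU hV hK
  refine sum_split t _ _ _ _ (fun s => βx s.1 * βu (s.2.1 * s.2.2.1) * βv D * βk s.2.2.2)
    (fun q hq => Finset.mem_filter.2 (gq_mem ht hq.1 hq.2.1)) ?_
  rintro ⟨s1, s2, s3, s4⟩ hs
  have hs' := Finset.mem_filter.1 hs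
  have hdiv := hs'.1
  have hcop : s2.Coprime s3 := hs'.2.1.2.2.2.1
  have hHH : s1 * s2 * s3 * s4 = t := hs'.2.2
  simp only [Finset.mem_product, Nat.mem_divisors] at hdiv
  rw [Finset.filter_filter]
  refine (prod_expand X U V K _ f hf (fun x => s1 ∣ x)
    (fun x u => s2 ∣ u ∧ (s3 : ℤ) ∣ (x : ℤ) + u - b)
    (fun x u v => (D : ℤ) ∣ (x : ℤ) + u + v - b) (fun k => s4 ∣ k) ?_).trans ?_
  · rintro x u v k ⟨⟨_, _, h0⟩, h⟩
    simp only [gq, Prod.mk.injEq] at h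
    obtain ⟨h1, h2, h3, h4⟩ := h
    have h0' : (D : ℤ) ∣ (x : ℤ) + u + v - b := by
      have e : ((bb (x, u, v, k) : ℕ) : ℤ) - b = (x : ℤ) + u + v - b := by
        simp [bb]
      rw [← e]
      exact h0
    have h3v : s3 ∣ v := h3 ▸ Nat.gcd_dvd_right _ _
    have h3D : (s3 : ℤ) ∣ (D : ℤ) := by
      exact_mod_cast (hdiv.2.2.1.1.trans htD)
    refine ⟨h1 ▸ Nat.gcd_dvd_right _ _, ⟨h2 ▸ Nat.gcd_dvd_right _ _, ?_⟩, h0',
      h4 ▸ Nat.gcd_dvd_right _ _⟩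
    have h5 : (s3 : ℤ) ∣ (x : ℤ) + u + v - b := h3D.trans h0'
    have h6 : (s3 : ℤ) ∣ (v : ℤ) := by exact_mod_cast h3v
    have h7 : (x : ℤ) + u - b = ((x : ℤ) + u + v - b) - v := by ring
    rw [h7]
    exact dvd_sub h5 h6
  · refine quad_bound X U V K (fun x => if s1 ∣ x then f x else 0)
      (fun x u => if s2 ∣ u ∧ (s3 : ℤ) ∣ (x : ℤ) + u - b then f u else 0)
      (fun x u v => if (D : ℤ) ∣ (x : ℤ) + u + v - b then f v else 0)
      (fun k => if s4 ∣ k then f k else 0) (fun x => ite_nn f hf _ _) (fun _ u => ite_nn f hf _ _)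
      (fun _ _ v => ite_nn f hf _ _) _ _ _ _ ?_ ?_ ?_ ?_ (hβ _).2.1 (hβ _).2.2.1 (hβ _).2.2.2
    · rw [← Finset.sum_filter]; exact hX s1 hdiv.1.1
    · intro x
      rw [← Finset.sum_filter]
      have h23 : s2 * s3 ∣ t := ⟨s1 * s4, by rw [← hHH]; ring⟩
      refine sum_le_of_class U _ f hf (s2 * s3) _ (hβ _).2.1 (fun c => hU _ c h23) ?_
      rintro u u' ⟨h1, h2⟩ ⟨h1', h2'⟩
      rw [← Nat.modEq_and_modEq_iff_modEq_mul hcop]
      constructor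
      · exact ((Nat.modEq_zero_iff_dvd.2 h1).trans (Nat.modEq_zero_iff_dvd.2 h1').symm)
      · rw [Nat.modEq_iff_dvd]
        have e : (u' : ℤ) - u = ((x : ℤ) + u' - b) - ((x : ℤ) + u - b) := by ring
        rw [e]
        exact dvd_sub h2' h2
    · intro x u
      rw [← Finset.sum_filter]
      refine sum_le_of_class V _ f hf D _ (hβ _).2.2.1 hV ?_
      intro v v' h h'
      rw [Nat.modEq_iff_dvd]
      have e : (v' : ℤ) - v = ((x : ℤ) + u + v' - b) - ((x : ℤ) + u + v - b) := by ring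
      rw [e]
      exact dvd_sub h' h
    · rw [← Finset.sum_filter]; exact hK s4 hdiv.2.2.2.1

end Pool.Agent.Lib.MP_ba0fa5_ag.AA.H81
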