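import Pool.Agent.Lib.MP_ba0fa5_ag.AA.IfaceA

/-!
# Module UNITS: the number of residues which are good for `n` (helper81)
-/

set_option autoImplicit false

namespace Pool.Agent.Lib.MP_ba0fa5_ag.AA.H81

open scoped Classical
open Finset

/-- Chinese remainder theorem, counting form -/
theorem crt_count (Ω : ℕ → Finset ℕ) (A : Finset ℕ) (hA : ∀ l ∈ A, l.Prime)
    (hΩ : ∀ l ∈ A, ∀ r ∈ Ω l, r < l) :
    ((range (∏ l ∈ A, l)).filter (fun w => ∀ l ∈ A, w % l ∈ Ω l)).card = ∏ l ∈ A, (Ω l).card := by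
  induction A using Finset.induction_on with
  | empty => simp
  | insert l A hl ih =>
    have ih' := ih (fun k hk => hA k (Finset.mem_insert_of_mem hk))
      (fun k hk => hΩ k (Finset.mem_insert_of_mem hk))
    have hlp := hA l (Finset.mem_insert_self l A)
    have hlΩ := hΩ l (Finset.mem_insert_self l A)
    rw [Finset.prod_insert hl, Finset.prod_insert hl, ← ih', ← Finset.card_product]
    set M := ∏ k ∈ A, k with hM
    have hMpos : 0 < M := Finset.prod_pos fun k hk => (hA k (Finset.mem_insert_of_mem hk)).pos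
    have hcop : l.Coprime M := by
      rw [hM, Nat.coprime_prod_right_iff]
      intro k hk
      rw [Nat.coprime_primes hlp (hA k (Finset.mem_insert_of_mem hk))]
      rintro rfl
      exact hl hk
    have hdvd : ∀ k ∈ A, k ∣ M := fun k hk => Finset.dvd_prod_of_mem _ hk
    refine Finset.card_bij (fun w _ => (w % l, w % M)) ?_ ?_ ?_
    · intro w hw
      simp only [Finset.mem_filter, Finset.mem_range, Finset.forall_mem_insert,
        Finset.mem_product] at hw ⊢
      refine ⟨hw.2.1, Nat.mod_lt _ hMpos, fun k hk => ?_⟩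
      rw [Nat.mod_mod_of_dvd _ (hdvd k hk)]
      exact hw.2.2 k hk
    · intro w hw w' hw' h
      simp only [Finset.mem_filter, Finset.mem_range] at hw hw'
      rw [Prod.mk.injEq] at h
      have h1 : w ≡ w' [MOD (l * M)] := (Nat.modEq_and_modEq_iff_modEq_mul hcop).1 ⟨h.1, h.2⟩
      exact Nat.ModEq.eq_of_lt_of_lt h1 hw.1 hw'.1
    · rintro ⟨r, b⟩ h
      simp only [Finset.mem_filter, Finset.mem_range, Finset.mem_product] at h
      obtain ⟨hr, hb, hbA⟩ := h
      obtain ⟨w, h1, h2⟩ := Nat.chineseRemainder hcop r b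
      have hwm : w % (l * M) < l * M := Nat.mod_lt _ (Nat.mul_pos hlp.pos hMpos)
      have e1 : (w % (l * M)) % l = r := by
        rw [Nat.mod_mul_right_mod, h1, Nat.mod_eq_of_lt (hlΩ r hr)]
      have e2 : (w % (l * M)) % M = b := by
        rw [Nat.mod_mul_left_mod, h2, Nat.mod_eq_of_lt hb]
      refine ⟨w % (l * M), ?_, ?_⟩
      · simp only [Finset.mem_filter, Finset.mem_range, Finset.forall_mem_insert]
        refine ⟨hwm, by rw [e1]; exact hr, fun k hk => ?_⟩
        rw [← Nat.mod_mod_of_dvd _ (hdvd k hk), e2]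
        exact hbA k hk
      · rw [e1, e2]

theorem oo_mul {l : ℕ} : 2 ^ padicValNat 2 (l - 1) * oo l = l - 1 := by
  unfold oo
  exact Nat.mul_div_cancel' pow_padicValNat_dvd

theorem oo_odd {l : ℕ} (hl : 3 ≤ l) : Odd (oo l) := by
  have h := Nat.not_dvd_ordCompl Nat.prime_two (n := l - 1) (by omega)
  rw [Nat.factorization_def _ Nat.prime_two] at h
  rw [← Nat.not_even_iff_odd, even_iff_two_dvd]
  exact h

theorem oo_pos {l : ℕ} (hl : 3 ≤ l) : 0 < oo l := (oo_odd hl).pos

theorem delta_eq {l : ℕ} : ((l - 1 : ℕ) : ℝ) * delta l = oo l := by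
  unfold delta
  have h := oo_mul (l := l)
  have h2 : ((l - 1 : ℕ) : ℝ) = 2 ^ padicValNat 2 (l - 1) * (oo l : ℝ) := by
    rw [← h]
    push_cast
    rw [h]
  rw [h2, one_div, inv_pow]
  field_simp

theorem card_neg (l : ℕ) [Fact l.Prime] (hl : 3 ≤ l) :
    ((Finset.univ : Finset (ZMod l)).filter (fun x => x ^ oo l = -1)).card = oo l := by
  have hodd := oo_odd hl
  have hpos := oo_pos hl
  -- a primitive root
  obtain ⟨g, hg⟩ := IsCyclic.exists_ofOrder_eq_natCard (α := (ZMod l)ˣ)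
  have hcard : Nat.card (ZMod l)ˣ = l - 1 := by
    rw [Nat.card_eq_fintype_card, ZMod.card_units]
  have hprim : IsPrimitiveRoot g (l - 1) := by
    have := IsPrimitiveRoot.orderOf g
    rwa [hg, hcard] at this
  have hprim2 : IsPrimitiveRoot ((g : ZMod l)) (l - 1) := IsPrimitiveRoot.coe_units_iff.2 hprim
  have hprim3 := IsPrimitiveRoot.pow (by omega) hprim2 (oo_mul (l := l)).symm
  have h1 := hprim3.card_nthRootsFinset
  refine Eq.trans ?_ h1
  refine Finset.card_bij (fun x _ => -x) ?_ ?_ ?_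
  · intro x hx
    rw [Polynomial.mem_nthRootsFinset hpos, Odd.neg_pow hodd, (Finset.mem_filter.1 hx).2, neg_neg]
  · intro x _ y _ h
    exact neg_injective h
  · intro y hy
    rw [Polynomial.mem_nthRootsFinset hpos] at hy
    refine ⟨-y, ?_, neg_neg y⟩
    rw [Finset.mem_filter]
    exact ⟨Finset.mem_univ _, by rw [Odd.neg_pow hodd, hy]⟩

theorem dvd_iff_zmod (l r : ℕ) : l ∣ r ^ oo l + 1 ↔ ((r : ZMod l)) ^ oo l = -1 := by
  rw [← ZMod.natCast_eq_zero_iff]
  push_cast
  rw [eq_neg_iff_add_eq_zero]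

theorem coprime_of_dvd {l r : ℕ} (hlp : l.Prime) (hl : 3 ≤ l) (h : l ∣ r ^ oo l + 1) :
    r.Coprime l := by
  rw [Nat.coprime_comm, Nat.Prime.coprime_iff_not_dvd hlp]
  intro h2
  have h3 : l ∣ r ^ oo l := dvd_pow h2 (oo_pos hl).ne'
  have h4 : l ∣ 1 := (Nat.dvd_add_right h3).1 h
  exact hlp.one_lt.ne' (Nat.dvd_one.1 h4)

theorem card_good (l : ℕ) (hlp : l.Prime) (hl : 3 ≤ l) :
    ((range l).filter (fun r => r.Coprime l ∧ l ∣ r ^ oo l + 1)).card = oo l := by
  have := Fact.mk hlp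
  refine Eq.trans ?_ (card_neg l hl)
  refine Finset.card_bij (fun r _ => (r : ZMod l)) ?_ ?_ ?_
  · intro r hr
    rw [Finset.mem_filter] at hr ⊢
    exact ⟨Finset.mem_univ _, (dvd_iff_zmod l r).1 hr.2.2⟩
  · intro r hr r' hr' h
    have h1 := (ZMod.natCast_eq_natCast_iff r r' l).1 h
    exact Nat.ModEq.eq_of_lt_of_lt h1 (Finset.mem_range.1 (Finset.mem_filter.1 hr).1)
      (Finset.mem_range.1 (Finset.mem_filter.1 hr').1)
  · intro x hx
    have hx2 := (Finset.mem_filter.1 hx).2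
    have h1 : ((x.val : ℕ) : ZMod l) = x := ZMod.natCast_zmod_val x
    have h2 : l ∣ x.val ^ oo l + 1 := by
      rw [dvd_iff_zmod, h1]
      exact hx2
    exact ⟨x.val, Finset.mem_filter.2 ⟨Finset.mem_range.2 (ZMod.val_lt x),
      coprime_of_dvd hlp hl h2, h2⟩, h1⟩

theorem card_units' (l : ℕ) (hlp : l.Prime) :
    ((range l).filter (fun r => r.Coprime l)).card = l - 1 := by
  rw [← Nat.totient_prime hlp, Nat.totient_eq_card_coprime]
  congr 1
  ext r
  simp [Nat.coprime_comm]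

/-- the admissible residues mod `l` -/
noncomputable def OmL (n l : ℕ) : Finset ℕ :=
  (range l).filter (fun r => r.Coprime l ∧ (l ∣ n → l ∣ r ^ oo l + 1))

theorem card_OmL (n l : ℕ) (hlp : l.Prime) (hl : 3 ≤ l) :
    ((OmL n l).card : ℝ) = ((l - 1 : ℕ) : ℝ) * (if l ∣ n then delta l else 1) := by
  unfold OmL
  by_cases h : l ∣ n
  · rw [if_pos h, delta_eq]
    norm_cast
    refine Eq.trans ?_ (card_good l hlp hl)
    congr 1
    ext r
    simp [h]
  · rw [if_neg h, mul_one, ← card_units' l hlp]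
    congr 2
    ext r
    simp [h]

theorem count_eq (Y n : ℕ) :
    ((((range (MM Y)).filter (fun a => a.Coprime (MM Y))).filter (fun a => ∀ l ∈
      (Icc 3 Y).filter Nat.Prime, l ∣ n → l ∣ a ^ oo l + 1)).card : ℝ) =
      ∏ l ∈ (Icc 3 Y).filter Nat.Prime, (((l - 1 : ℕ) : ℝ) * (if l ∣ n then delta l else 1)) := by
  have h1 := crt_count (OmL n) ((Icc 3 Y).filter Nat.Prime)
    (fun l hl => (Finset.mem_filter.1 hl).2)
    (fun l _ r hr => Finset.mem_range.1 (Finset.mem_filter.1 hr).1)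
  have h2 : ((range (MM Y)).filter (fun a => a.Coprime (MM Y))).filter (fun a => ∀ l ∈
      (Icc 3 Y).filter Nat.Prime, l ∣ n → l ∣ a ^ oo l + 1) =
      (range (∏ l ∈ (Icc 3 Y).filter Nat.Prime, l)).filter
        (fun w => ∀ l ∈ (Icc 3 Y).filter Nat.Prime, w % l ∈ OmL n l) := by
    ext a
    simp only [Finset.mem_filter, Finset.mem_range, MM, OmL, Nat.coprime_prod_right_iff, and_assoc]
    refine and_congr_right fun _ => ?_
    constructor
    · rintro ⟨ha, hb⟩ l hl
      refine ⟨Nat.mod_lt _ hl.2.pos, ?_, fun hn => ?_⟩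
      · have := ha l hl
        rwa [Nat.coprime_iff_gcd_eq_one, ← Nat.gcd_rec, Nat.gcd_comm]
      · have h3 := hb l hl hn
        rw [dvd_iff_zmod] at h3 ⊢
        rw [ZMod.natCast_mod]
        exact h3
    · intro h
      refine ⟨?_, ?_⟩
      · rintro l hl
        have := (h l hl).2.1
        rwa [Nat.coprime_iff_gcd_eq_one, ← Nat.gcd_rec, Nat.gcd_comm] at this
      · intro l hl hn
        have h3 := (h l hl).2.2 hn
        rw [dvd_iff_zmod] at h3 ⊢
        rw [ZMod.natCast_mod] at h3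
        exact h3
  rw [h2, h1]
  push_cast
  refine Finset.prod_congr rfl fun l hl => ?_
  have hl' := Finset.mem_filter.1 hl
  exact_mod_cast card_OmL n l hl'.2 (Finset.mem_Icc.1 hl'.1).1

/-- Module UNITS. -/
theorem units : UnitsStmt := by
  intro Y n hn hodd hY
  have h1 := count_eq Y n
  have h2 := count_eq Y 1
  have e1 : (Om Y).filter (fun a => Gd a n) =
      ((range (MM Y)).filter (fun a => a.Coprime (MM Y))).filter (fun a => ∀ l ∈
      (Icc 3 Y).filter Nat.Prime, l ∣ n → l ∣ a ^ oo l + 1) := by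
    ext a
    simp only [Om, Finset.mem_filter, Finset.mem_range]
    refine and_congr_right fun _ => ?_
    constructor
    · rintro h l ⟨_, hlp⟩ hln
      exact h l hlp hln
    · intro h l hlp hln
      refine h l ⟨Finset.mem_Icc.2 ⟨?_, hY l hlp hln⟩, hlp⟩ hln
      have h3 : l ≠ 2 := by
        rintro rfl
        rw [Nat.odd_iff] at hodd
        omega
      have := hlp.two_le
      omega
  have e2 : Om Y = ((range (MM Y)).filter (fun a => a.Coprime (MM Y))).filter (fun a => ∀ l ∈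
      (Icc 3 Y).filter Nat.Prime, l ∣ 1 → l ∣ a ^ oo l + 1) := by
    ext a
    simp only [Om, Finset.mem_filter, Finset.mem_range]
    constructor
    · rintro h
      refine ⟨h, ?_⟩
      rintro l ⟨_, hlp⟩ hln
      exact absurd (Nat.dvd_one.1 hln) hlp.one_lt.ne'
    · exact fun h => h.1
  have h3 : wt n = ∏ l ∈ (Icc 3 Y).filter Nat.Prime, (if l ∣ n then delta l else 1) := by
    unfold wt
    rw [Finset.prod_ite, Finset.prod_const_one, mul_one]
    refine Finset.prod_congr ?_ fun _ _ => rfl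
    ext l
    simp only [Nat.mem_primeFactors, Finset.mem_filter, Finset.mem_Icc]
    constructor
    · rintro ⟨hlp, hln, _⟩
      refine ⟨⟨⟨?_, hY l hlp hln⟩, hlp⟩, hln⟩
      have h3 : l ≠ 2 := by
        rintro rfl
        rw [Nat.odd_iff] at hodd
        omega
      have := hlp.two_le
      omega
    · rintro ⟨⟨_, hlp⟩, hln⟩
      exact ⟨hlp, hln, by omega⟩
  have h4 : ∏ l ∈ (Icc 3 Y).filter Nat.Prime, (((l - 1 : ℕ) : ℝ) * (if l ∣ 1 then delta l else 1)) =
      ∏ l ∈ (Icc 3 Y).filter Nat.Prime, ((l - 1 : ℕ) : ℝ) := by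
    refine Finset.prod_congr rfl fun l hl => ?_
    rw [if_neg, mul_one]
    intro h
    exact (Finset.mem_filter.1 hl).2.one_lt.ne' (Nat.dvd_one.1 h)
  have h5 : (((Om Y).filter (fun a => Gd a n)).card : ℝ) =
      ∏ l ∈ (Icc 3 Y).filter Nat.Prime, (((l - 1 : ℕ) : ℝ) * (if l ∣ n then delta l else 1)) := by
    rw [← h1, e1]
  have h6 : ((Om Y).card : ℝ) = ∏ l ∈ (Icc 3 Y).filter Nat.Prime, ((l - 1 : ℕ) : ℝ) := by
    rw [← h4, ← h2, ← e2]
  rw [h5, h6, h3, ← Finset.prod_mul_distrib]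

end Pool.Agent.Lib.MP_ba0fa5_ag.AA.H81
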